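import Pool.Agent.GK.C.Main
import Pool.Agent.GK.C.Sgn
import Pool.Agent.GK.C.Vk
import Pool.Agent.GK.X.Exy
import Pool.Agent.TS.F.Fld
import Pool.Agent.GKR.Mer

/-!
# GKR-Cor: from `ThinD (i + 1)` to all fields with local degrees divisible by `2 ^ i`, degrees divisible by `M`

As GK/C/Cor, with a totally real field of the degree of `K` (`exists_TR`, TS/F/Fld), `algRM` and `mernM`.
-/

namespace Pool.Agent.GKR

open NumberField IsDedekindDomain Pool.Agent.HWR Pool.Agent.QD Pool.Agent.QD.In Pool.Agent.LD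
  Pool.Agent.MD Pool.Agent.THF Pool.Agent.TF2 Pool.Agent.GJ Pool.Agent.H73.AL Pool.Agent.GK

open Nat in
private theorem cor_le (x M : ℕ) : x ≤ bdM x M := by
  unfold bdM
  have h1 : x ≤ x ! := Nat.self_le_factorial x
  have h0 : 0 < x ! := Nat.factorial_pos x
  have h2 : 0 < 2 ^ (M + 3) := by positivity
  have h3 : 0 < 2 ^ (2 * (x ! * x !)) ^ 2 := by positivity
  have h4 : x ! ≤ x ! * x ! := Nat.le_mul_of_pos_left _ h0
  calc x ≤ x ! := h1
    _ ≤ x ! * x ! := h4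
    _ ≤ 2 * (x ! * x !) := by omega
    _ ≤ 2 * (x ! * x !) * 2 ^ (2 * (x ! * x !)) ^ 2 := Nat.le_mul_of_pos_right _ h3
    _ ≤ _ := Nat.le_mul_of_pos_left _ h2

/-- the bound for the degrees -/
def bCM (i M n : ℕ) : ℕ := 2 * (4 ^ (i + 1) * bdM (n * 2 ^ 13) M)

theorem clM (i : ℕ) {M : ℕ} (hM : 0 < M) : ∃ b : ℕ → ℕ, ClM i M b := by
  refine ⟨bCM i M, ?_⟩
  intro T hTp hT D a ha hfr V n hR H K _ _ hKi hKm hKn
  set B : ℕ := n * 2 ^ 13 with hB
  have hb : bCM i M n = 2 * (4 ^ (i + 1) * bdM B M) := rfl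
  have h4 : 0 < 4 ^ (i + 1) := by positivity
  have hBb : B ≤ 4 ^ (i + 1) * bdM B M := (cor_le B M).trans (Nat.le_mul_of_pos_left _ h4)
  have hbd : 4 ^ (i + 1) * bdM B M ≤ bCM i M n := by
    rw [hb]
    omega
  have hBC : B ≤ bCM i M n := hBb.trans hbd
  have hG : GlobW i V D a M B :=
    globW_of hTp D fun F _ _ h1 h2 h3 => H F h1 h2 (h3.trans hBC)
  have hMer : MerW i V D a M B := by
    intro F _ _ hF
    have h1 : Module.finrank ℚ F ≤ B := by simpa using hF.1.2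
    exact mernM (V := V) (i := i + 1) (M := M) (C := bCM i M n) (n := B) hM hTp hT D ha
      (fun R _ _ h1 h2 h3 => (hR R h1 h2 h3).1) (fun F _ _ h1 h2 h3 => H F h1 h2 h3) F hF.1.1 h1
      hbd hBC
  have hE := exL_of hTp hT D ha hfr hG hMer
  have hK : Lw i V T M B 13 K := ⟨⟨hKm, by rw [hB]; exact Nat.mul_le_mul_right _ hKn⟩, hKi⟩
  have hKB : Module.finrank ℚ K ≤ B := hKn.trans (Nat.le_mul_of_pos_right _ (by positivity))
  refine ⟨hE.1 K (hK.mono (by norm_num)), fun F _ _ _ hd => ?_⟩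
  obtain ⟨R0, hR0, hR1, -⟩ := Pool.Agent.TS.exists_TR ∅ (⟨K⟩ : NF)
  have hR1' : Module.finrank ℚ R0.F = Module.finrank ℚ K := hR1
  have hR0m : M ∣ Module.finrank ℚ R0.F := by
    rw [hR1']
    exact hKm
  have hR0B : Module.finrank ℚ R0.F ≤ B := by
    rw [hR1']
    exact hKB
  obtain ⟨hRa, hRb⟩ := hR R0.F hR0 hR0m (hR0B.trans hBC)
  have hR2 : 0 < InfinitePlace.nrRealPlaces R0.F := by
    have h6 := InfinitePlace.card_add_two_mul_card_eq_rank R0.F
    rw [hR0] at h6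
    have h7 : 0 < Module.finrank ℚ R0.F := Module.finrank_pos
    omega
  obtain ⟨m1, m2, A, Bl, h1, h2, h3, h5⟩ :=
    algRM V (i + 1) hTp (hT 2 Nat.prime_two (by norm_num)) (M := M) (n := B) hM (⟨K⟩ : NF) R0 hKm
      hR0m hKB hR0B hR2
  have hAB : ∀ F ∈ A ++ Bl, IsEmpty (F.F →+* ℝ) ∧ AllQ D a F.F := by
    intro F hF
    obtain ⟨⟨h6, h8⟩, h7⟩ := h3 F hF
    refine ⟨h6.1, pm_of_hw D a (H F.F h6 h8 (h7.trans hbd)), fun E _ _ _ hE => ?_⟩
    have h10 : Module.finrank ℚ E = Module.finrank ℚ F.F * 2 := by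
      rw [← Module.finrank_mul_finrank ℚ F.F E, hE]
    refine H E h6.ext ?_ ?_
    · rw [h10]
      exact h8.mul_right 2
    · rw [h10, hb]
      omega
  exact exact_signN hTp hT D ha hfr hE K hK h1 hAB
    (ndk_allQ hTp hT D ha hfr R0.F ⟨pm_of_hw D a hRa, fun F _ _ _ hd => hRb F hd⟩) h2 h5 F hd

end Pool.Agent.GKR
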