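import Pool.Agent.GKR.Grp

/-!
# GKR-Deep: as `algRD` (GK/C/Deep), degrees divisible by a given number
-/

namespace Pool.Agent.GKR

open Pool.Agent.GJ MulAction Pool.Agent.H73.DU Pool.Agent.H73.AL Pool.Agent.LD Pool.Agent.TS
  Pool.Agent.TF2 Pool.Agent.GK

open NumberField

theorem algRM (V : Finset ℕ) (j : ℕ) {T : Finset ℕ} (hTp : ∀ p ∈ T, p.Prime) (h2 : 2 ∈ T)
    {M n : ℕ} (hM : 0 < M) (K R0 : NF) (hK : M ∣ Module.finrank ℚ K.F)
    (hR : M ∣ Module.finrank ℚ R0.F) (hKn : Module.finrank ℚ K.F ≤ n)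
    (hRn : Module.finrank ℚ R0.F ≤ n) (hr : 0 < InfinitePlace.nrRealPlaces R0.F) :
    ∃ (m1 m2 : ℕ) (A B : List NF), 0 < m1 ∧
      m2 * InfinitePlace.nrRealPlaces R0.F = m1 * InfinitePlace.nrRealPlaces K.F ∧
      (∀ F ∈ A ++ B, (ThinD j V T F.F ∧ 2 * M ∣ Module.finrank ℚ F.F) ∧
        Module.finrank ℚ F.F ≤ 4 ^ j * bdM n M) ∧
      Rel T (List.replicate m1 K ++ A) (List.replicate m2 R0 ++ B) := by
  obtain ⟨k, hk, hf⟩ := grpM V hTp h2 hM K R0 hK hR hKn hRn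
    (Classical.arbitrary (K.F →+* AlgebraicClosure ℚ))
    (Classical.arbitrary (R0.F →+* AlgebraicClosure ℚ))
  obtain ⟨A, B, g1, g2⟩ := th_lists (pow_TH hTp h2 hf j)
  refine ⟨2 ^ j * k * InfinitePlace.nrRealPlaces R0.F, 2 ^ j * k * InfinitePlace.nrRealPlaces K.F,
    A, B, by positivity, by ring, fun F hF => ?_, fun U hU => ?_⟩
  · obtain ⟨g3, g4, g5⟩ := g1 F hF
    exact ⟨⟨g3, g4⟩, g5⟩
  · have e2 := g2 U hU
    have mK : mark K.F U = pc (stb (Classical.arbitrary (K.F →+* AlgebraicClosure ℚ))) U := by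
      rw [mark_eq_pc K.F (Classical.arbitrary _)]
      rfl
    have mR : mark R0.F U = pc (stb (Classical.arbitrary (R0.F →+* AlgebraicClosure ℚ))) U := by
      rw [mark_eq_pc R0.F (Classical.arbitrary _)]
      rfl
    rw [Pi.smul_apply, Pi.smul_apply, Pi.sub_apply, Pi.smul_apply, Pi.smul_apply, ← mK,
      ← mR] at e2
    simp only [sM, List.map_append, List.sum_append, List.map_replicate, List.sum_replicate,
      smul_eq_mul, nsmul_eq_mul] at e2 ⊢
    push_cast at e2 ⊢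
    linear_combination e2

end Pool.Agent.GKR
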