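import Pool.Agent.GR.X.Exr
import Pool.Agent.GK.C.Deep
import Pool.Agent.GK.X.Exy

/-!
# GKR-Defs: fields with few real places, deep local degrees and degree divisible by a given number

Project GKR (EvenLocalDegrees v6).
-/

namespace Pool.Agent.GKR

open NumberField IsDedekindDomain MulAction Pool.Agent.HWR Pool.Agent.QD Pool.Agent.H73.AL
  Pool.Agent.H73.DU Pool.Agent.MD Pool.Agent.LD Pool.Agent.TS Pool.Agent.GJ Pool.Agent.GK
  Pool.Agent.GR

/-- the exact subgroups -/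
def Em (V T : Finset ℕ) (i g : ℕ) (H : Subgroup GQ) : Prop :=
  IsOpen (H : Set GQ) ∧ ((Ci V T (i + 1) H ∧ Ra g H) ∨ TR H ∨
    ∃ H' : Subgroup GQ, IsOpen (H' : Set GQ) ∧ H ≤ H' ∧ H.relIndex H' = 2)

/-- the span of the exact subgroups, of the doubles, and of `ZT`, all indices divisible by `n` -/
def EM (V T : Finset ℕ) (i g n B : ℕ) : AddSubgroup (Subgroup GQ → ℤ) :=
  AddSubgroup.closure {f | (∃ H : Subgroup GQ, Em V T i g H ∧ n ∣ H.index ∧ H.index ≤ B ∧ f = pc H) ∨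
    (∃ H : Subgroup GQ, IsOpen (H : Set GQ) ∧ n ∣ H.index ∧ H.index ≤ B ∧ f = (2 : ℤ) • pc H) ∨
      ZT T f}

/-- the fields for which the exact functional equation is known -/
def ExaM (i g : ℕ) (V T : Finset ℕ) (X : NF) : Prop :=
  (DvV (i + 1) V T X.F ∧ RaD g X.F) ∨ InfinitePlace.nrComplexPlaces X.F = 0 ∨
    ∃ (Y : NF) (_ : Algebra Y.F X.F), Module.finrank Y.F X.F = 2

/-- the algebraic theorem for fields -/
def AlgM (i g : ℕ) (c : ℕ → ℕ) : Prop :=
  ∀ (T : Finset ℕ) (_ : ∀ p ∈ T, p.Prime) (_ : 2 ∈ T) (V : Finset ℕ) (K : NF), DvV i V T K.F →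
    ∃ A B C E Z Z' : List NF,
      Rel ∅ (K :: (A ++ (C ++ C))) (B ++ (E ++ E)) ∧
      (∀ l ∈ T, ∀ _ : Fact l.Prime, ∀ U : Subgroup GQ, U ≤ decomp ℚ_[l] (emb l) →
        ((K :: (A ++ (C ++ C)) ++ (Z ++ Z)).map fun F => mark F.F U).sum =
          ((B ++ (E ++ E) ++ (Z' ++ Z')).map fun F => mark F.F U).sum) ∧
      (∀ X ∈ A ++ B, Module.finrank ℚ K.F ∣ Module.finrank ℚ X.F ∧
        Module.finrank ℚ X.F ≤ c (Module.finrank ℚ K.F) ∧ ExaM i g V T X) ∧
      ∀ X ∈ C ++ E, Module.finrank ℚ K.F ∣ Module.finrank ℚ X.F ∧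
        Module.finrank ℚ X.F ≤ c (Module.finrank ℚ K.F)

open Nat in
/-- the bound for the relation of two fields of degree `≤ n` -/
def bdM (n M : ℕ) : ℕ := 2 ^ (M + 3) * ((2 * (n ! * n !)) * 2 ^ ((2 * (n ! * n !)) ^ 2))

/-- the relative theorem: from the totally complex fields with local degrees divisible by `2 ^ (i + 1)` and degree
divisible by `2 * M` to all fields with local degrees divisible by `2 ^ i` and degree divisible by `M` -/
def ClM (i M : ℕ) (b : ℕ → ℕ) : Prop :=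
  ∀ (T : Finset ℕ) (_ : ∀ p ∈ T, p.Prime) (_ : ∀ p : ℕ, p.Prime → p < 101 → p ∈ T)
    (D : LocData T) (a : ℕ → ℝ) (_ : ∀ q : ℕ, |a q| ≤ 2 * Real.sqrt q) (_ : FrobRel T a)
    (V : Finset ℕ) (n : ℕ)
    (_ : ∀ (R : Type) [Field R] [NumberField R], InfinitePlace.nrComplexPlaces R = 0 →
      M ∣ Module.finrank ℚ R → Module.finrank ℚ R ≤ b n → D.HW a R ∧
      ∀ (F : Type) [Field F] [NumberField F] [Algebra R F], Module.finrank R F = 2 → D.HW a F)
    (_ : ∀ (F : Type) [Field F] [NumberField F], ThinD (i + 1) V T F →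
      2 * M ∣ Module.finrank ℚ F → Module.finrank ℚ F ≤ b n → D.HW a F)
    (K : Type) [Field K] [NumberField K], DvV i V T K → M ∣ Module.finrank ℚ K →
      Module.finrank ℚ K ≤ n → Pool.Agent.TF2.AllQ D a K

end Pool.Agent.GKR
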