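import Pool.Agent.GKR.Defs
import Pool.Agent.GK.H.Cc
import Pool.Agent.THF.L.Artin
import Pool.Agent.THF.L.AB
import Pool.Agent.THF.L.Real
import Pool.Agent.THF.L.Sq
import Pool.Agent.TF2.L.Cent2
import Pool.Agent.TF2.L.W2
import Pool.Agent.TS.S.Prod

/-!
# GKR-Grp: a relation of two fields and totally complex fields, degrees divisible by a given number

As TF2/L/Grp2: `artin` for the constant function `1` on `SS0`, multiplied by `r₁(R0) pc (stb ψ) - r₁(K) pc (stb φ)`, which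
vanishes outside `SS0` by `mark_real`.
-/

namespace Pool.Agent.GKR

open NumberField IsDedekindDomain Pool.Agent.HWR Pool.Agent.QD Pool.Agent.LD Pool.Agent.H73.AL
  Pool.Agent.H73.DU Pool.Agent.THF Pool.Agent.TF2 Pool.Agent.TS Pool.Agent.GJ Pool.Agent.GK

private theorem gm_cl (inst : Algebra ℚ (AlgebraicClosure ℚ)) :
    IsAlgClosure ℚ (AlgebraicClosure ℚ) := by
  have h : inst = AlgebraicClosure.instAlgebra ℚ := Subsingleton.elim _ _
  subst h
  infer_instance

/-- the stabilizer of an element -/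
private noncomputable def gm_st (s : AlgebraicClosure ℚ) : Subgroup GQ :=
  MulAction.stabilizer GQ s

private theorem gm_mem {s : AlgebraicClosure ℚ} {g : GQ} : g ∈ gm_st s ↔ g s = s := by
  unfold gm_st
  rw [MulAction.mem_stabilizer_iff, AlgEquiv.smul_def]

private theorem gm_open (s : AlgebraicClosure ℚ) : IsOpen (gm_st s : Set GQ) := by
  have hcl : IsAlgClosure ℚ (AlgebraicClosure ℚ) := gm_cl inferInstance
  have hi : IsIntegral ℚ s := (hcl.isAlgebraic.isAlgebraic s).isIntegral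
  have : FiniteDimensional ℚ (IntermediateField.adjoin ℚ {s}) :=
    IntermediateField.adjoin.finiteDimensional hi
  refine Subgroup.isOpen_mono ?_
    (IntermediateField.fixingSubgroup_isOpen (IntermediateField.adjoin ℚ {s}))
  intro g hg
  rw [gm_mem]
  exact (IntermediateField.mem_fixingSubgroup_iff _ g).1 hg _
    (IntermediateField.mem_adjoin_simple_self ℚ s)

private theorem gm_pm {s : AlgebraicClosure ℚ} {x : ℚ}
    (hs : s ^ 2 = algebraMap ℚ (AlgebraicClosure ℚ) x) (g : GQ) : g s = s ∨ g s = -s := by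
  have h : (g s) ^ 2 = s ^ 2 := by
    rw [← map_pow, hs]
    exact g.commutes x
  exact sq_eq_sq_iff_eq_or_eq_neg.1 h

private theorem gm_index {s : AlgebraicClosure ℚ} {x : ℚ}
    (hs : s ^ 2 = algebraMap ℚ (AlgebraicClosure ℚ) x) : (gm_st s).index ≤ 2 := by
  unfold gm_st
  rw [MulAction.index_stabilizer]
  have hsub : MulAction.orbit GQ s ⊆ ({s, -s} : Set (AlgebraicClosure ℚ)) := by
    rintro _ ⟨g, rfl⟩
    change g • s ∈ ({s, -s} : Set (AlgebraicClosure ℚ))
    rw [AlgEquiv.smul_def]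
    rcases gm_pm hs g with h | h
    · rw [h]
      exact Set.mem_insert _ _
    · rw [h]
      exact Set.mem_insert_of_mem _ rfl
  refine (Set.ncard_le_ncard hsub (Set.toFinite _)).trans ?_
  refine (Set.ncard_insert_le _ _).trans ?_
  rw [Set.ncard_singleton]

private theorem gm_normal {s : AlgebraicClosure ℚ} {x : ℚ}
    (hs : s ^ 2 = algebraMap ℚ (AlgebraicClosure ℚ) x) : (gm_st s).Normal := by
  refine ⟨fun n hn g => ?_⟩
  have hn' : n s = s := gm_mem.1 hn
  rw [gm_mem, AlgEquiv.mul_apply, AlgEquiv.mul_apply]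
  have hgg : g (g⁻¹ s) = s := by
    rw [← AlgEquiv.mul_apply, mul_inv_cancel]
    rfl
  rcases gm_pm hs g⁻¹ with h | h
  · rw [h, hn']
    rw [h] at hgg
    exact hgg
  · rw [h, map_neg, hn']
    rw [h] at hgg
    exact hgg

private theorem gm_sqrt (x : ℚ) :
    ∃ s : AlgebraicClosure ℚ, s ^ 2 = algebraMap ℚ (AlgebraicClosure ℚ) x :=
  IsAlgClosed.exists_pow_nat_eq _ (by norm_num)


private theorem gm_factorial (F : Type) [Field F] [NumberField F] :
    (⨅ ψ : F →+* AlgebraicClosure ℚ, stb ψ).index ≤ Nat.factorial (Module.finrank ℚ F) := by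
  classical
  have h1 : (⨅ ψ : F →+* AlgebraicClosure ℚ, stb ψ) =
      (MulAction.toPermHom GQ (F →+* AlgebraicClosure ℚ)).ker := by
    ext g
    rw [Subgroup.mem_iInf, MonoidHom.mem_ker]
    constructor
    · intro h
      ext1 ψ
      exact h ψ
    · intro h ψ
      exact Equiv.congr_fun h ψ
  have h4 := NumberField.Embeddings.card F (AlgebraicClosure ℚ)
  rw [h1, Subgroup.index_ker]
  refine (Nat.card_le_card_of_injective _ Subtype.val_injective).trans ?_
  rw [Nat.card_eq_fintype_card, Fintype.card_perm, h4]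

private theorem gm_inf_open (F : Type) [Field F] [NumberField F] :
    IsOpen ((⨅ ψ : F →+* AlgebraicClosure ℚ, stb ψ : Subgroup GQ) : Set GQ) := by
  rw [Subgroup.coe_iInf]
  exact isOpen_iInter_of_finite fun ψ => stab_open F ψ

private theorem gm_inf_normal (F : Type) [Field F] [NumberField F] :
    (⨅ ψ : F →+* AlgebraicClosure ℚ, stb ψ).Normal := by
  refine ⟨fun n hn g => ?_⟩
  rw [Subgroup.mem_iInf] at hn ⊢
  intro ψ
  have h1 : n • g⁻¹ • ψ = g⁻¹ • ψ := hn (g⁻¹ • ψ)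
  change (g * n * g⁻¹) • ψ = ψ
  rw [mul_smul, mul_smul, h1, smul_inv_smul]

private theorem gm_sum (A : List (Subgroup GQ)) (U : Subgroup GQ) :
    (A.map fun J => pc J).sum U = (A.map fun J => pc J U).sum := by
  induction A with
  | nil => rfl
  | cons a A ih => rw [List.map_cons, List.sum_cons, Pi.add_apply, ih, List.map_cons, List.sum_cons]

private theorem gm_two {M x : ℕ} (hM : 0 < M) (h1 : M ∣ x) (h2 : 2 ^ M ∣ x) : 2 * M ∣ x := by
  obtain ⟨a, u, hu, rfl⟩ := Nat.exists_eq_two_pow_mul_odd hM.ne'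
  have h3 : a < 2 ^ a * u :=
    lt_of_lt_of_le (Nat.lt_two_pow_self) (Nat.le_mul_of_pos_right _ hu.pos)
  have h4 : 2 ^ (a + 1) ∣ x := (pow_dvd_pow 2 h3).trans h2
  have h5 : u ∣ x := (Dvd.intro_left _ rfl).trans h1
  have h6 : Nat.Coprime (2 ^ (a + 1)) u := Nat.Coprime.pow_left _ (Nat.coprime_two_left.2 hu)
  have h7 := h6.mul_dvd_of_dvd_of_dvd h4 h5
  have h8 : 2 * (2 ^ a * u) = 2 ^ (a + 1) * u := by ring
  rw [h8]
  exact h7

theorem grpM (V : Finset ℕ) {T : Finset ℕ} (hTp : ∀ p ∈ T, p.Prime) (h2 : 2 ∈ T) {M n : ℕ}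
    (hM : 0 < M) (K R0 : NF) (hK : M ∣ Module.finrank ℚ K.F) (hR : M ∣ Module.finrank ℚ R0.F)
    (hKn : Module.finrank ℚ K.F ≤ n) (hRn : Module.finrank ℚ R0.F ≤ n)
    (ψ : K.F →+* AlgebraicClosure ℚ) (φ : R0.F →+* AlgebraicClosure ℚ) :
    ∃ k : ℕ, 0 < k ∧
      (k : ℤ) • ((InfinitePlace.nrRealPlaces R0.F : ℤ) • pc (stb ψ) -
        (InfinitePlace.nrRealPlaces K.F : ℤ) • pc (stb φ)) ∈ TH V T 0 (2 * M) (bdM n M) := by
  classical
  obtain ⟨i, c, hic⟩ := exists_cx
  obtain ⟨d, hd0, hdT⟩ := exists_d hTp h2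
  obtain ⟨s, hs⟩ := gm_sqrt (d : ℚ)
  have hnice := nice_rat T
  obtain ⟨HK, hHK⟩ : ∃ H : Subgroup GQ, H = ⨅ ψ : K.F →+* AlgebraicClosure ℚ, stb ψ := ⟨_, rfl⟩
  obtain ⟨HR, hHR⟩ : ∃ H : Subgroup GQ, H = ⨅ ψ : R0.F →+* AlgebraicClosure ℚ, stb ψ := ⟨_, rfl⟩
  have hKo : IsOpen (HK : Set GQ) := by rw [hHK]; exact gm_inf_open K.F
  have hRo : IsOpen (HR : Set GQ) := by rw [hHR]; exact gm_inf_open R0.F
  have hKnm : HK.Normal := by rw [hHK]; exact gm_inf_normal K.F
  have hRnm : HR.Normal := by rw [hHR]; exact gm_inf_normal R0.F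
  have hns := gm_normal hs
  obtain ⟨N0, hN0e⟩ : ∃ H : Subgroup GQ, H = (HK ⊓ HR) ⊓ gm_st s := ⟨_, rfl⟩
  have hN0 : IsOpen (N0 : Set GQ) := by
    rw [hN0e]
    exact (hKo.inter hRo).inter (gm_open s)
  have hn0 : N0.Normal := by
    rw [hN0e]
    infer_instance
  have hfi0 : N0.FiniteIndex := hnice.finiteIndex hN0
  have hN0i : N0.index ≤ 2 * (Nat.factorial n * Nat.factorial n) := by
    rw [hN0e]
    refine Subgroup.index_inf_le.trans ?_
    rw [mul_comm]
    refine Nat.mul_le_mul (gm_index hs) (Subgroup.index_inf_le.trans ?_)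
    refine Nat.mul_le_mul ?_ ?_
    · rw [hHK]
      exact (gm_factorial K.F).trans (Nat.factorial_le hKn)
    · rw [hHR]
      exact (gm_factorial R0.F).trans (Nat.factorial_le hRn)
  have hN0K : ∀ ψ : K.F →+* AlgebraicClosure ℚ, N0 ≤ stb ψ := by
    intro ψ
    rw [hN0e, hHK]
    exact (inf_le_left.trans inf_le_left).trans (iInf_le _ ψ)
  have hN0R : ∀ ψ : R0.F →+* AlgebraicClosure ℚ, N0 ≤ stb ψ := by
    intro ψ
    rw [hN0e, hHR]
    exact (inf_le_left.trans inf_le_right).trans (iInf_le _ ψ)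
  have hN0s : ∀ g ∈ N0, g s = s := by
    intro g hg
    rw [hN0e] at hg
    exact gm_mem.1 hg.2
  obtain ⟨N1, hN1, hn1, h10, hN1i, hcent⟩ := cent2 hic N0 hN0 hn0 hfi0
  obtain ⟨W, hWo, hWn, hWi, hWs, hWT⟩ := exists_W hTp (M + 1)
  obtain ⟨N2, hN2e⟩ : ∃ H : Subgroup GQ, H = N1 ⊓ W := ⟨_, rfl⟩
  have hn2 : N2.Normal := by
    rw [hN2e]
    infer_instance
  have hN2 : IsOpen (N2 : Set GQ) := by
    rw [hN2e]
    exact hN1.inter hWo
  have hfi2 : N2.FiniteIndex := hnice.finiteIndex hN2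
  have h21 : N2 ≤ N1 := by rw [hN2e]; exact inf_le_left
  have hN2W : N2 ≤ W := by rw [hN2e]; exact inf_le_right
  have h20 : N2 ≤ N0 := h21.trans h10
  have hN2i : N2.index ≤ bdM n M := by
    rw [hN2e]
    refine Subgroup.index_inf_le.trans ?_
    rw [hWi]
    unfold bdM
    rw [mul_comm]
    refine Nat.mul_le_mul (Nat.pow_le_pow_right two_pos (by omega)) (hN1i.trans ?_)
    exact Nat.mul_le_mul hN0i (Nat.pow_le_pow_right two_pos (Nat.pow_le_pow_left hN0i 2))
  obtain ⟨k, A, B, hk, hAB, hid, hzero⟩ := artin N2 (SS0 T N2 c)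
    (by
      rintro H ⟨⟨U, -, rfl⟩, -⟩
      exact le_sup_right)
    (fun H hH g => SS0_conj hn2 hH g)
    (fun H hH H' h1 h2 => SS0_sub hn2 hH h1 h2)
    (fun _ => (1 : ℤ)) (fun H _ g => rfl)
  have hN2J : ∀ J ∈ A ++ B, N2 ≤ J := by
    intro J hJ
    obtain ⟨⟨U, -, rfl⟩, -⟩ := hAB J hJ
    exact le_sup_right
  have hmem : ∀ X : Subgroup GQ, N2 ≤ X → M ∣ X.index → ∀ J ∈ A ++ B,
      pc X * pc J ∈ TH V T 0 (2 * M) (bdM n M) := by
    intro X hNX hMX J hJ
    have hNJ := hN2J J hJ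
    obtain ⟨⟨U, hU, hJU⟩, hJc⟩ := hAB J hJ
    have hXo : IsOpen (X : Set GQ) := Subgroup.isOpen_mono hNX hN2
    have hJo : IsOpen (J : Set GQ) := Subgroup.isOpen_mono hNJ hN2
    have f1 : X.FiniteIndex := hnice.finiteIndex hXo
    have f2 : J.FiniteIndex := hnice.finiteIndex hJo
    have f3 : Finite (GQ ⧸ X) := Subgroup.finite_quotient_of_finiteIndex
    have f4 : Finite (GQ ⧸ J) := Subgroup.finite_quotient_of_finiteIndex
    refine pc_mul X J _ fun b => ?_
    have hTC : TC J := by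
      by_contra h
      obtain ⟨g, hg⟩ := cc_conj hic hJo h
      exact hJc g hg
    have hNb : N2 ≤ X ⊓ cj b J := by
      refine le_inf hNX fun g hg => ?_
      refine mem_cj_iff.2 ⟨b * g * b⁻¹, hNJ (hn2.conj_mem g hg b), ?_⟩
      group
    have hJi : (cj b J).index = J.index := Subgroup.index_map_equiv J (MulAut.conj b⁻¹)
    have hJd : 2 ^ M ∣ J.index := by
      rw [hJU]
      exact dvd_index hWn hWi hWs hWT hN2W hU
    refine mem_TH ⟨Subgroup.isOpen_mono hNb hN2, fun P _ => ?_⟩ ((hTC.cj b).mono inf_le_right) ?_ ?_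
    · rw [pow_zero]
      exact one_dvd _
    · refine gm_two hM (hMX.trans (Subgroup.index_dvd_of_le inf_le_left)) ?_
      rw [← hJi] at hJd
      exact hJd.trans (Subgroup.index_dvd_of_le inf_le_right)
    · refine le_trans (Nat.le_of_dvd ?_ (Subgroup.index_dvd_of_le hNb)) hN2i
      exact Nat.pos_of_ne_zero hfi2.index_ne_zero
  obtain ⟨D, hD⟩ : ∃ D : Subgroup GQ → ℤ, D = (B.map fun J => pc J).sum -
    (A.map fun J => pc J).sum := ⟨_, rfl⟩
  have hmD : ∀ X : Subgroup GQ, N2 ≤ X → M ∣ X.index →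
      pc X * D ∈ TH V T 0 (2 * M) (bdM n M) := by
    intro X hNX hMX
    rw [hD, mul_sub, ← List.sum_map_mul_left, ← List.sum_map_mul_left]
    refine AddSubgroup.sub_mem _ (AddSubgroup.list_sum_mem _ fun x hx => ?_)
      (AddSubgroup.list_sum_mem _ fun x hx => ?_)
    · obtain ⟨J, hJ, rfl⟩ := List.mem_map.1 hx
      exact hmem X hNX hMX J (List.mem_append_right _ hJ)
    · obtain ⟨J, hJ, rfl⟩ := List.mem_map.1 hx
      exact hmem X hNX hMX J (List.mem_append_left _ hJ)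
  obtain ⟨x, hx⟩ : ∃ x : Subgroup GQ → ℤ, x = (InfinitePlace.nrRealPlaces R0.F : ℤ) • pc (stb ψ) -
        (InfinitePlace.nrRealPlaces K.F : ℤ) • pc (stb φ) := ⟨_, rfl⟩
  have hxD : x * D ∈ TH V T 0 (2 * M) (bdM n M) := by
    rw [hx, sub_mul, smul_mul_assoc, smul_mul_assoc]
    refine AddSubgroup.sub_mem _ (AddSubgroup.zsmul_mem _ (hmD _ (h20.trans (hN0K ψ)) ?_) _)
      (AddSubgroup.zsmul_mem _ (hmD _ (h20.trans (hN0R φ)) ?_) _)
    · rw [index_stb]
      exact hK
    · rw [index_stb]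
      exact hR
  refine ⟨k, hk, ?_⟩
  rw [← hx]
  have hz : (k : ℤ) • x - x * D ∈ TH V T 0 (2 * M) (bdM n M) := by
    refine AddSubgroup.subset_closure (Or.inr fun U hU => ?_)
    have hpcA : (A.map fun J => pc J U).sum = (A.map fun J => pc J (U ⊔ N2)).sum := by
      congr 1
      refine List.map_congr_left fun J hJ => ?_
      exact (pc_sup N2 J U (hN2J J (List.mem_append_left _ hJ))).symm
    have hpcB : (B.map fun J => pc J U).sum = (B.map fun J => pc J (U ⊔ N2)).sum := by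
      congr 1
      refine List.map_congr_left fun J hJ => ?_
      exact (pc_sup N2 J U (hN2J J (List.mem_append_right _ hJ))).symm
    rw [Pi.sub_apply, Pi.smul_apply, Pi.mul_apply, smul_eq_mul]
    by_cases hH : U ⊔ N2 ∈ SS0 T N2 c
    · have h := hid _ hH
      have hDU : D U = k := by
        rw [hD, Pi.sub_apply, gm_sum, gm_sum, hpcA, hpcB]
        linarith
      rw [hDU]
      ring
    · have hg : ∃ g : GQ, g⁻¹ * c * g ∈ U ⊔ N2 := by
        by_contra hno
        push Not at hno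
        exact hH ⟨⟨U, hU, rfl⟩, hno⟩
      obtain ⟨g, hg⟩ := hg
      have hr := mark_real hic K.F hd0 hdT hs hn0 hn1 hn2 h10 h21 hN0K hN0s hcent hU hg
      have hr' := mark_real hic R0.F hd0 hdT hs hn0 hn1 hn2 h10 h21 hN0R hN0s hcent hU hg
      rw [mark_eq_pc K.F ψ] at hr
      rw [mark_eq_pc R0.F φ] at hr'
      have hxU : x U = 0 := by
        rw [hx, Pi.sub_apply, Pi.smul_apply, Pi.smul_apply, smul_eq_mul, smul_eq_mul]
        change _ * pc (MulAction.stabilizer GQ ψ) U - _ * pc (MulAction.stabilizer GQ φ) U = 0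
        rw [hr, hr']
        ring
      rw [hxU]
      ring
  have hfin := AddSubgroup.add_mem _ hz hxD
  rwa [sub_add_cancel] at hfin

end Pool.Agent.GKR
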