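import Pool.Agent.GKR.Defs
import Pool.Agent.GR.Step

/-!
# GKR-Step: as GR/Step, all indices divisible by the index of `H`
-/

namespace Pool.Agent.GKR

open Pool.Agent.GJ Pool.Agent.GK MulAction Pool.Agent.H73.DU Pool.Agent.H73.AL Pool.Agent.LD
  Pool.Agent.TS Pool.Agent.GR

open NumberField

private theorem st_le_cj {N H : Subgroup GQ} (hn : N.Normal) (h : N ≤ H) (b : GQ) :
    N ≤ cj b H := by
  intro g hg
  refine mem_cj_iff.2 ⟨b * g * b⁻¹, h (hn.conj_mem g hg b), ?_⟩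
  group

/-- marks depend only on the action modulo a normal subgroup -/
private theorem st_congr {NM H : Subgroup GQ} (hn : NM.Normal) (h : NM ≤ H) {t d : GQ}
    (ht : d⁻¹ * t ∈ NM) : pc H (Subgroup.zpowers t) = pc H (Subgroup.zpowers d) := by
  have h1 : ∀ x : GQ ⧸ H, t • x = d • x := by
    intro x
    induction x using QuotientGroup.induction_on with
    | H a =>
      change (((t * a : GQ) : GQ ⧸ H) = ((d * a : GQ)))
      rw [eq_comm, QuotientGroup.eq]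
      have h2 : (d * a)⁻¹ * (t * a) = a⁻¹ * (d⁻¹ * t) * a⁻¹⁻¹ := by group
      rw [h2]
      exact h (hn.conj_mem _ ht a⁻¹)
  have h3 : fx (GQ ⧸ H) (Subgroup.zpowers t) = fx (GQ ⧸ H) (Subgroup.zpowers d) := by
    ext x
    rw [fx_zpowers, fx_zpowers, h1 x]
  unfold pc pch
  rw [h3]

private theorem st_mv {L NM : Subgroup GQ} (hn : NM.Normal) {P : Pl} {b : GQ}
    (h : P.D ⊓ NM ≤ cj b L) : (P.mv b).D ⊓ NM ≤ L := by
  rintro x ⟨hx, hx'⟩
  have h1 : b⁻¹ * x * b ∈ P.D := by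
    unfold Pl.D Pl.mv at hx
    obtain ⟨u, hu, hux⟩ := mem_cj_iff.1 hx
    unfold Pl.D
    refine mem_cj_iff.2 ⟨u, hu, ?_⟩
    rw [← hux]
    simp only [inv_inv, mul_inv_rev]
    group
  have h2 : b⁻¹ * x * b ∈ NM := by
    have := hn.conj_mem x hx' b⁻¹
    rwa [inv_inv] at this
  obtain ⟨u, hu, hux⟩ := mem_cj_iff.1 (h ⟨h1, h2⟩)
  have h3 : u = x := by
    have h4 : u = b * (b⁻¹ * u * b) * b⁻¹ := by group
    rw [h4, hux]
    group
  rw [← h3]
  exact hu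

private theorem st_tr (F : NF) (hF : NumberField.InfinitePlace.nrComplexPlaces F.F = 0)
    (φ : F.F →+* AlgebraicClosure ℚ) : TR (stb φ) := by
  intro ι c hc
  have h1 : NumberField.ComplexEmbedding.IsReal (ι.comp φ) := by
    rw [← NumberField.InfinitePlace.isReal_mk_iff]
    exact (NumberField.nrComplexPlaces_eq_zero_iff.1 hF).isReal _
  rw [NumberField.ComplexEmbedding.isReal_iff] at h1
  refine MulAction.mem_stabilizer_iff.2 ?_
  ext x
  rw [smul_emb]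
  apply ι.injective
  rw [hc (φ x)]
  exact RingHom.congr_fun h1 x

/-- the square of a complex conjugation -/
private theorem st_sq {c : GQ} (hc : IsCc c) : c * c = 1 := by
  obtain ⟨ι, hι⟩ := hc
  ext x
  apply ι.injective
  have h1 : (c * c) x = c (c x) := rfl
  rw [h1, hι, hι, Complex.conj_conj]
  rfl

theorem mem_Em {V T : Finset ℕ} {i g n B : ℕ} {H : Subgroup GQ} (h : Em V T i g H)
    (hn : n ∣ H.index) (hB : H.index ≤ B) : pc H ∈ EM V T i g n B :=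
  AddSubgroup.subset_closure (Or.inl ⟨H, h, hn, hB, rfl⟩)

theorem mem_twoM {V T : Finset ℕ} {i g n B : ℕ} {H : Subgroup GQ} (h : IsOpen (H : Set GQ))
    (hn : n ∣ H.index) (hB : H.index ≤ B) : (2 : ℤ) • pc H ∈ EM V T i g n B :=
  AddSubgroup.subset_closure (Or.inr (Or.inl ⟨H, h, hn, hB, rfl⟩))

theorem mem_zeroM {V T : Finset ℕ} {i g n B : ℕ} {f : Subgroup GQ → ℤ} (h : ∀ U ∈ famT T, f U = 0) :
    f ∈ EM V T i g n B :=
  AddSubgroup.subset_closure (Or.inr (Or.inr (ZT_of_famT h)))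

theorem stepM {V T : Finset ℕ} (hTp : ∀ p ∈ T, p.Prime) (h2 : 2 ∈ T) {i g : ℕ}
    {f : ℕ → ℕ} (hf : ∀ N0 : Subgroup GQ, N0.Normal →
      IsOpen (N0 : Set GQ) → ∃ NM : Subgroup GQ, NM.Normal ∧ IsOpen (NM : Set GQ) ∧ NM ≤ N0 ∧
        (∀ c : GQ, IsCc c → c ∉ NM) ∧ g ≤ NM.index ∧ NM.index ≤ f N0.index)
    {H : Subgroup GQ} (hH : Ci V T i H) :
    pc H ∈ EM V T i g H.index (max (bN f H.index) H.index) := by
  classical
  obtain ⟨K, ψ, hψ, hKm, hKi⟩ := exists_nf H hH.op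
  obtain ⟨F, hF0, hFn, hFm⟩ := exists_TR (V ∪ T) K
  obtain ⟨φ⟩ : Nonempty (F.F →+* AlgebraicClosure ℚ) := inferInstance
  have hJpc : mark F.F = pc (stb φ) := mark_eq_pc F.F φ
  have hFi : Module.finrank ℚ F.F = H.index := hFn.trans hKi
  obtain ⟨N0, hN0n, hN0o, hN0i, hN0t⟩ := exists_NM K F H.index hKi hFi
  have hfin0 : N0.FiniteIndex := (nice_rat T).finiteIndex hN0o
  have hN0J : N0 ≤ stb φ := fun g hg => MulAction.mem_stabilizer_iff.2 ((hN0t g hg).2 φ)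
  have hN0H : N0 ≤ H := by
    rw [← hψ]
    exact fun g hg => MulAction.mem_stabilizer_iff.2 ((hN0t g hg).1 ψ)
  obtain ⟨J, hJdef⟩ : ∃ J : Subgroup GQ, J = stb φ := ⟨_, rfl⟩
  have hJo : IsOpen (J : Set GQ) := by rw [hJdef]; exact stab_open F.F φ
  have hJTR : TR J := by rw [hJdef]; exact st_tr F hF0 φ
  rw [← hJdef] at hJpc hN0J
  have hJi : J.index = H.index := by
    have h3 := congrFun hJpc ⊥
    rw [pc_bot, mark, pch_bot] at h3
    have h4 := NumberField.Embeddings.card F.F (AlgebraicClosure ℚ)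
    rw [← Nat.card_eq_fintype_card] at h4
    rw [h4] at h3
    have h5 : (Module.finrank ℚ F.F : ℤ) = (J.index : ℤ) := h3
    rw [← hFi]
    exact_mod_cast h5.symm
  have hJm : ∀ P : Pl, P.p ∈ V ∪ T → ∀ U : Subgroup GQ, U ≤ P.D → pc H U = pc J U := by
    intro P hP U hU
    rw [← hKm, ← hJpc]
    refine hFm P.p hP U ⟨P.g, ?_⟩
    intro x hx
    obtain ⟨u, hu, rfl⟩ := mem_cj_iff.1 hx
    obtain ⟨d, hd, h2⟩ := mem_cj_iff.1 (hU hu)
    have h3 : P.g⁻¹ * u * P.g = d := by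
      rw [← h2]
      group
    rw [h3]
    exact hd
  have hJ : Ci V T i J := ci_of_marks hH hJo fun P hP U hU =>
    hJm P (Finset.mem_union_left _ hP.1) U hU
  obtain ⟨NM, hNMn, hNMo, h10, hNMc, hNMk, hNMi⟩ := hf N0 hN0n hN0o
  have hNMH : NM ≤ H := h10.trans hN0H
  have hNMJ : NM ≤ J := h10.trans hN0J
  have hNMf : NM.FiniteIndex := (nice_rat T).finiteIndex hNMo
  obtain ⟨N1, hN1n, hN1o, hN1le, hN1sq, hN1i, hN1u⟩ := exists_N (V := V) hTp h2 NM hNMo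
  obtain ⟨N2, u, σ, hN2n, hN2o, hN2le, hN2sq, hN2i, hσ⟩ := exists_sig NM hNMo
  obtain ⟨N, hNdef⟩ : ∃ N : Subgroup GQ, N = N1 ⊓ N2 := ⟨_, rfl⟩
  have hNn : N.Normal := by
    rw [hNdef]
    infer_instance
  have hNo : IsOpen (N : Set GQ) := by
    rw [hNdef]
    exact hN1o.inter hN2o
  have hN1 : N ≤ N1 := by rw [hNdef]; exact inf_le_left
  have hN2 : N ≤ N2 := by rw [hNdef]; exact inf_le_right
  have hNle : N ≤ NM := hN1.trans hN1le
  have hNsq : ∀ e ∈ NM, e * e ∈ N := by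
    intro e he
    rw [hNdef]
    exact ⟨hN1sq e he, hN2sq e he⟩
  have hNf : N.FiniteIndex := (nice_rat T).finiteIndex hNo
  have hNσ : Sig NM N u σ := ⟨hσ.mem, hσ.add, hσ.conj, fun a ha => hσ.ker a (hN2 ha), hσ.one, hσ.zero⟩
  have hNu : ∀ (p : ℕ) [Fact p.Prime], p ∈ V → p ∉ T → ∃ u ∈ decomp ℚ_[p] (emb p), u ∈ NM ∧
      ∀ σ : GQ, σ * u * σ⁻¹ * u⁻¹ ∈ N → ∃ d ∈ decomp ℚ_[p] (emb p), d⁻¹ * σ ∈ NM := by
    intro p _ hp hp'
    obtain ⟨u, h3, h4, h5⟩ := hN1u p hp hp'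
    exact ⟨u, h3, h4, fun σ hσ => h5 σ (hN1 hσ)⟩
  have hNMB : NM.index ≤ bF f H.index := by
    refine hNMi.trans ?_
    exact Finset.single_le_sum (f := f) (fun _ _ => Nat.zero_le _)
      (Finset.mem_range.2 (Nat.lt_succ_of_le hN0i))
  have hNB : N.index ≤ bN f H.index := by
    have h3 : N.index ≤ N1.index * N2.index := by
      rw [hNdef]
      exact Subgroup.index_inf_le
    have h4 : NM.index * 2 ^ NM.index ≤ bF f H.index * 2 ^ bF f H.index :=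
      Nat.mul_le_mul hNMB (Nat.pow_le_pow_right (by norm_num) hNMB)
    exact h3.trans (Nat.mul_le_mul (hN1i.trans h4) (hN2i.trans h4))
  have hidx : ∀ L : Subgroup GQ, N ≤ L → L.index ≤ bN f H.index := fun L hL =>
    (Nat.le_of_dvd (Nat.pos_of_ne_zero Subgroup.FiniteIndex.index_ne_zero)
      (Subgroup.index_dvd_of_le hL)).trans hNB
  have hop : ∀ L : Subgroup GQ, N ≤ L → IsOpen (L : Set GQ) := fun L hL =>
    Subgroup.isOpen_mono hL hNo
  have hfin : ∀ L : Subgroup GQ, N ≤ L → Finite (GQ ⧸ L) := fun L hL =>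
    (nice_rat T).fin (hop L hL)
  -- the classes
  set C : Set (Subgroup GQ) := {L | N ≤ L ∧ H.index ∣ L.index ∧ Ci V T i L} with hCdef
  set C' : Set (Subgroup GQ) := {L | L ∈ C ∧ Ci V T (i + 1) L ∧ Ra g L} with hC'def
  have hinf : ∀ L ∈ C, ∀ K : Subgroup GQ, N ≤ K → ∀ b : GQ, L ⊓ cj b K ∈ C := by
    intro L hL K hK b
    have h3 : N ≤ L ⊓ cj b K := le_inf hL.1 (st_le_cj hNn hK b)
    exact ⟨h3, hL.2.1.trans (Subgroup.index_dvd_of_le inf_le_left),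
      hL.2.2.mono inf_le_left (hop _ h3)⟩
  have hC : Cls C := ⟨fun L hL => hfin L hL.1, fun L hL K hK b => hinf L hL K hK.1 b⟩
  have hHC : H ∈ C := ⟨hNle.trans hNMH, dvd_rfl, hH⟩
  have hJC : J ∈ C := ⟨hNle.trans hNMJ, by rw [hJi], hJ⟩
  have hh : pc H - pc J ∈ RC C := AddSubgroup.sub_mem _
    (AddSubgroup.subset_closure ⟨H, hHC, rfl⟩) (AddSubgroup.subset_closure ⟨J, hJC, rfl⟩)
  have hC' : ∀ L ∈ C', ∀ K : Subgroup GQ, N ≤ K → ∀ b : GQ, L ⊓ cj b K ∈ C' := by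
    intro L hL K hK b
    have h3 := hinf L hL.1 K hK b
    exact ⟨h3, hL.2.1.mono inf_le_left (hop _ h3.1), hL.2.2.mono inf_le_left (hop _ h3.1)⟩
  -- killing
  have hkk : ∀ K ∈ C, NM ≤ K → ∀ L : Subgroup GQ, N ≤ L →
      ((∀ P : Pl, Pin V T P → ¬ P.D ⊓ NM ≤ L) ∧ ∃ t : GQ, Kt NM N L t) →
      pc K * pc L ∈ RC C' := by
    rintro K hK hNK L hL ⟨hKp, t, ht⟩
    have := hfin K hK.1
    have := hfin L hL
    refine pc_mul K L _ fun b => ?_
    have hi := hinf K hK L hL b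
    have hkt : Kt NM N (K ⊓ cj b L) (b⁻¹ * t * b) := (ht.cj b).mono inf_le_right
    refine AddSubgroup.subset_closure ⟨K ⊓ cj b L, ⟨hi, ?_, ?_⟩, rfl⟩
    · refine ⟨hop _ hi.1, fun P hP => ?_⟩
      exact deep NM N hNsq hNK (st_le_cj hNn hL b) (hK.2.2.2 P hP) fun hcon =>
        hKp (P.mv b) hP (st_mv hNMn hcon)
    · intro c hc
      have h3 := fix_le hNle hNsq hNσ hkt hi.1 (hNMc c hc) (by rw [st_sq hc]; exact NM.one_mem)
      have h4 : (0 : ℤ) ≤ pc (K ⊓ cj b L) (Subgroup.zpowers c) := by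
        unfold pc pch
        positivity
      have h5 : (g : ℤ) ≤ (NM.index : ℤ) := by
        exact_mod_cast hNMk
      nlinarith [mul_le_mul_of_nonneg_right h5 h4]
  have hk : ∀ L : Subgroup GQ, N ≤ L →
      ((∀ P : Pl, Pin V T P → ¬ P.D ⊓ NM ≤ L) ∧ ∃ t : GQ, Kt NM N L t) →
      (pc H - pc J) * pc L ∈ RC C' := by
    intro L hL hKp
    rw [sub_mul]
    exact AddSubgroup.sub_mem _ (hkk H hHC hNMH L hL hKp) (hkk J hJC hNMJ L hL hKp)
  -- an element acting as `d` modulo `NM` on which the marks agree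
  have hev : ∀ (t d : GQ) (a : ℕ), d⁻¹ * t ^ 2 ^ a ∈ NM →
      pc H (Subgroup.zpowers d) = pc J (Subgroup.zpowers d) →
      (2 : ℤ) ∣ (pc H - pc J) (Subgroup.zpowers t) := by
    intro t d a hdt e3
    have := hfin H hHC.1
    have := hfin J hJC.1
    have e1 := pc_mod H t a
    have e2 := pc_mod J t a
    rw [st_congr hNMn hNMH hdt] at e1
    rw [st_congr hNMn hNMJ hdt] at e2
    rw [Pi.sub_apply]
    have e4 : pc H (Subgroup.zpowers t) - pc J (Subgroup.zpowers t) =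
        (pc H (Subgroup.zpowers t) - pc H (Subgroup.zpowers d)) -
        (pc J (Subgroup.zpowers t) - pc J (Subgroup.zpowers d)) := by
      rw [e3]
      ring
    rw [e4]
    exact dvd_sub e1 e2
  have hU : ∀ U ∈ famT T, (2 : ℤ) ∣ (pc H - pc J) U ∨ ∃ L : Subgroup GQ, N ≤ L ∧
      ((∀ P : Pl, Pin V T P → ¬ P.D ⊓ NM ≤ L) ∧ ∃ t : GQ, Kt NM N L t) ∧
        ¬ (2 : ℤ) ∣ pc L U := by
    rintro U (⟨t, rfl⟩ | ⟨l, hl, a, hlT, hU⟩)
    · obtain ⟨a, q, L, hq, htq, hNL, hodd, hnorm, hor⟩ := kil2 NM N hNo hNsq hNu t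
      by_cases htM : t ^ 2 ^ a ∈ NM
      · left
        refine hev t 1 a (by rwa [inv_one, one_mul]) ?_
        rw [Subgroup.zpowers_one_eq_bot, pc_bot, pc_bot, hJi]
      · rcases hor with h3 | ⟨P, hP, d, hd, hdt⟩
        · exact Or.inr ⟨L, hNL, ⟨h3, _, ⟨htM, ⟨q, hq, htq⟩, hnorm⟩⟩, hodd⟩
        · left
          exact hev t d a hdt (hJm P (Finset.mem_union_left _ hP.1) _
            (by rw [Subgroup.zpowers_le]; exact hd))
    · left
      have h3 : U ≤ (Pl.mk l a).D := by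
        intro x hx
        unfold Pl.D
        refine mem_cj_iff.2 ⟨a⁻¹ * x * a, hU (mem_cj hx), ?_⟩
        group
      rw [Pi.sub_apply, hJm (Pl.mk l a) (Finset.mem_union_right _ hlT) U h3, sub_self]
      exact dvd_zero _
  have hmem := lemK2 N hC (fun L hL => hL.1) hC' (famT T) hh
    (fun L => (∀ P : Pl, Pin V T P → ¬ P.D ⊓ NM ≤ L) ∧ ∃ t : GQ, Kt NM N L t) hk hU
  -- the span
  have hle : MC C (famT T) ⊔ RC C' ≤ EM V T i g H.index (max (bN f H.index) H.index) := by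
    refine sup_le ?_ ?_
    · unfold MC
      rw [AddSubgroup.closure_le]
      rintro f' (⟨L, hL, rfl⟩ | ⟨L, hL, ⟨Y, hY, hY2⟩, rfl⟩ | hf')
      · exact mem_twoM (hop L hL.1) hL.2.1 ((hidx L hL.1).trans (le_max_left _ _))
      · exact mem_Em ⟨hop L hL.1, Or.inr (Or.inr ⟨Y, hop Y (hL.1.trans hY), hY, hY2⟩)⟩ hL.2.1
          ((hidx L hL.1).trans (le_max_left _ _))
      · exact mem_zeroM hf'
    · unfold RC
      rw [AddSubgroup.closure_le]
      rintro f' ⟨L, hL, rfl⟩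
      exact mem_Em ⟨hop L hL.1.1, Or.inl hL.2⟩ hL.1.2.1
        ((hidx L hL.1.1).trans (le_max_left _ _))
  have hpJ : pc J ∈ EM V T i g H.index (max (bN f H.index) H.index) :=
    mem_Em ⟨hJo, Or.inr (Or.inl hJTR)⟩ hJC.2.1 ((hidx J hJC.1).trans (le_max_left _ _))
  have hfinal : pc H = (pc H - pc J) + pc J := by abel
  rw [hfinal]
  exact AddSubgroup.add_mem _ (hle hmem) hpJ

theorem algM (i g : ℕ) : ∃ b : ℕ → ℕ, ∀ (T : Finset ℕ) (_ : ∀ p ∈ T, p.Prime)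
    (_ : 2 ∈ T) (V : Finset ℕ) (H : Subgroup GQ), Ci V T i H →
      pc H ∈ EM V T i g H.index (b H.index) := by
  obtain ⟨f, hf⟩ := exists_big g
  exact ⟨fun k => max (bN f k) k, fun T hTp h2 V H hH => stepM hTp h2 hf hH⟩

end Pool.Agent.GKR
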